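import Pool.Agent.AT8.Stmts3

/-!
# Squad AT8, row HGT: the heights are smaller than `k`
-/

open scoped BigOperators

noncomputable section

namespace Pool.Agent.PP.T8.H18

open Pool.Agent.Helper51_AWC Pool.Agent.Helper79_WRA Pool.Agent.PP Pool.Agent.PP.KF
open Pool.Agent.PP.K9 Pool.Agent.PP.K9.H97 Pool.Agent.PP.H75 Pool.Agent.PP.T3 Pool.Agent.PP.T2

attribute [local instance] Ideal.Quotient.field

/-- an inverse exponent modulo `ℓ ^ a` -/
theorem exists_inv {ℓ : ℕ} [hℓ : Fact ℓ.Prime] {a j : ℕ} (ha : 0 < a) (hj : ¬ ℓ ∣ j) :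
    ∃ j' : ℕ, ¬ ℓ ∣ j' ∧ ∀ {G : Type} [Group G] (u : G), u ^ ℓ ^ a = 1 →
      (u ^ j) ^ j' = u ∧ (u ^ j') ^ j = u := by
  have hl : 1 < ℓ ^ a := Nat.one_lt_pow ha.ne' hℓ.out.one_lt
  have hc : Nat.Coprime j (ℓ ^ a) :=
    Nat.Coprime.pow_right a (((Nat.Prime.coprime_iff_not_dvd hℓ.out).2 hj).symm)
  obtain ⟨j', -, hj'⟩ := Nat.exists_mul_mod_eq_one_of_coprime hc hl
  refine ⟨j', ?_, ?_⟩
  · intro hd
    have h1 : ℓ ∣ ℓ ^ a := dvd_pow_self ℓ ha.ne'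
    have h2 : ℓ ∣ j * j' := hd.mul_left j
    have h3 : ℓ ∣ 1 := by
      rw [← hj']
      exact (Nat.dvd_mod_iff h1).2 h2
    exact hℓ.out.one_lt.ne' (Nat.dvd_one.1 h3)
  · intro G _ u hu
    have h1 : u ^ (j * j') = u := by
      have h2 : u ^ (j * j') = u ^ (j * j' % ℓ ^ a) := pow_eq_pow_mod _ hu
      rw [h2, hj', pow_one]
    constructor
    · rw [← pow_mul, h1]
    · rw [← pow_mul, mul_comm j' j, h1]

theorem card_filter_ndvd {ℓ : ℕ} [hℓ : Fact ℓ.Prime] {a : ℕ} (ha : 0 < a) :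
    ((Finset.range (ℓ ^ a)).filter (fun j => ¬ ℓ ∣ j)).card = ℓ ^ (a - 1) * (ℓ - 1) := by
  rw [← Nat.totient_prime_pow hℓ.out ha, Nat.totient_eq_card_coprime]
  congr 1
  apply Finset.filter_congr
  intro j _
  rw [Nat.coprime_pow_left_iff ha, Nat.Prime.coprime_iff_not_dvd hℓ.out]

/-- HGT: the heights are smaller than `k`. -/
theorem hgt (dcg : DcgStmt) (dpw : DpwStmt) (inr : T3.InrStmt) (nrm : NrmStmt) (sbs : SbsStmt)
    (inx : K9.InxStmt) : HgtStmt := by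
  classical
  intro ℓ hℓ M hMx hM hl2 G _ _ e V γ b d c ε D a k ha hexp hcount χ hχ u0 hu0 hcon
  have hχI : χ ∈ Irr G := hχ.1
  have hln0 : (ℓ : ℂ) ≠ 0 := by exact_mod_cast hℓ.out.ne_zero
  have hix : ¬ ℓ ∣ ix V γ :=
    inx ℓ M hM G e D.ld.blk V D.ld.tp D.ld.ab γ D.ld.gam.supp D.ld.gam.blk D.ld.und
  obtain ⟨hpT, hpP, hpR⟩ := dpw ℓ M hM hl2 G e V γ b d c ε D
  -- the residues are units
  set ρ : ℂ := (Nat.card G * c : ℂ) / (Nat.card (Subgroup.centralizer (V : Set G)) * χ 1) with hρ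
  have hX : ∀ u, Rg V γ u → vv M b d u χ * ρ ∈ RM M ∧ rr M (vv M b d u χ * ρ) ≠ 0 := by
    intro u hu
    obtain ⟨h1, h2⟩ := dcg ℓ M hM G e V γ b d c ε D u hu χ hχ
    refine ⟨h1, ?_⟩
    rw [h2, ← (rr_int (M := M) (ε u * ix V γ)).2]
    intro h3
    have h4 := (dvd_of_rr (M := M) hℓ.out hM).1 h3
    have h5 : (ℓ : ℤ) ∣ (ix V γ : ℤ) := by
      rcases D.sg u hu with h | h
      · rwa [h, one_mul] at h4
      · rw [h, neg_one_mul] at h4
        exact (Int.dvd_neg.1 h4)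
    exact hix (Int.natCast_dvd_natCast.1 h5)
  have hv0 : ∀ u, Rg V γ u → vv M b d u χ ≠ 0 := by
    intro u hu h0
    apply (hX u hu).2
    rw [h0, zero_mul, rr_zero]
  have hdiv : ∀ u, Rg V γ u → vv M b d u χ / ℓ ^ k ∈ RM M := by
    intro u hu
    obtain ⟨h1, h2⟩ := inv_RM (hX u0 hu0).1 (hX u0 hu0).2
    have h3 := (RM M).mul_mem ((RM M).mul_mem hcon (hX u hu).1) h1
    have h4 : vv M b d u0 χ ≠ 0 := left_ne_zero_of_mul h2
    have h5 : ρ ≠ 0 := right_ne_zero_of_mul h2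
    have h6 : vv M b d u0 χ / ℓ ^ k * (vv M b d u χ * ρ) * (vv M b d u0 χ * ρ)⁻¹ =
        vv M b d u χ / ℓ ^ k := by
      field_simp
    rwa [h6] at h3
  -- the elements of `V`
  have hpow : ∀ u ∈ V, u ^ ℓ ^ a = 1 := by
    intro u hu
    have h1 := Monoid.pow_exponent_eq_one (⟨u, hu⟩ : V)
    rw [hexp] at h1
    exact congrArg Subtype.val h1
  -- the inequality for one regular element
  have hone : ∀ u, Rg V γ u → ((ℓ ^ (a - 1) * (ℓ - 1) * ℓ ^ (2 * k) : ℕ) : ℝ) ≤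
      ∑ j ∈ (Finset.range (ℓ ^ a)).filter (fun j => ¬ ℓ ∣ j),
        Complex.normSq (vv M b d (u ^ j) χ) := by
    intro u hu
    have hq : ((ℓ ^ a : ℕ) : ℂ) ≠ 0 := by
      exact_mod_cast (pow_pos hℓ.out.pos a).ne'
    have hζ := Complex.isPrimitiveRoot_exp (ℓ ^ a) (pow_pos hℓ.out.pos a).ne'
    obtain ⟨m, hm⟩ := inr M G u (ℓ ^ a) (pow_pos hℓ.out.pos a) (hpow u hu.1) (b u)
      (D.lc u hu).blk.ix (d u) (D.dg u hu) _ hζ χ hχI
    have hd : (d u : ℂ) ≠ 0 := by exact_mod_cast (D.dg u hu).1.ne'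
    have hvj : ∀ j : ℕ, ¬ ℓ ∣ j → vv M b d (u ^ j) χ = ∑ i ∈ Finset.range (ℓ ^ a),
        (m i : ℂ) * Complex.exp (2 * Real.pi * Complex.I / ((ℓ ^ a : ℕ) : ℂ)) ^ (i * j) := by
      intro j hj
      obtain ⟨-, e2, e3, -⟩ := hpP u hu j hj
      have hC : Cu (u ^ j) = Cu u := by
        obtain ⟨j', -, hj'⟩ := exists_inv (ℓ := ℓ) ha hj
        have h1 := (hj' u (hpow u hu.1)).1
        ext x
        rw [Subgroup.mem_centralizer_singleton_iff, Subgroup.mem_centralizer_singleton_iff]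
        constructor
        · intro h
          have h2 : Commute x (u ^ j) := h
          have h3 := h2.pow_right j'
          rw [h1] at h3
          exact h3
        · intro h
          have h2 : Commute x u := h
          exact h2.pow_right j
      unfold vv
      rw [e2, e3, hC, hm j, mul_div_cancel_left₀ _ hd]
    have h1 := nrm ℓ M hM a 0 k ha _ hζ m (by
      intro j hj
      rw [← hvj j hj, pow_zero, div_one]
      exact hdiv _ (hpP u hu j hj).1) (by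
      have h2 := hvj 1 (fun h => hℓ.out.one_lt.ne' (Nat.dvd_one.1 h))
      rw [pow_one] at h2
      simp only [mul_one] at h2
      rw [← h2]
      exact hv0 u hu)
    refine h1.trans (le_of_eq ?_)
    apply Finset.sum_congr rfl
    intro j hj
    rw [hvj j (Finset.mem_filter.1 hj).2, pow_zero, div_one]
  -- the sum over all regular elements
  have := Fintype.ofFinite G
  set R : Finset G := Finset.univ.filter (fun u => Rg V γ u) with hR
  have hRc : {u | Rg V γ u}.ncard = R.card := by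
    rw [← Set.ncard_coe_finset]
    congr 1
    ext u
    simp [hR]
  set S : ℝ := ∑ u ∈ R, Complex.normSq (vv M b d u χ) with hS
  have hSf : ∑ᶠ (u : G) (_ : Rg V γ u), Complex.normSq (vv M b d u χ) = S := by
    rw [finsum_eq_sum_of_fintype, hS, hR, Finset.sum_filter]
    apply Finset.sum_congr rfl
    intro u _
    rw [finsum_eq_if]
  have hperm : ∀ j : ℕ, ¬ ℓ ∣ j →
      ∑ u ∈ R, Complex.normSq (vv M b d (u ^ j) χ) = S := by
    intro j hj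
    obtain ⟨j', hj1, hj'⟩ := exists_inv (ℓ := ℓ) ha hj
    refine Finset.sum_nbij' (fun u => u ^ j) (fun u => u ^ j') ?_ ?_ ?_ ?_ ?_
    · intro u hu
      exact Finset.mem_filter.2 ⟨Finset.mem_univ _, (hpP u (Finset.mem_filter.1 hu).2 j hj).1⟩
    · intro u hu
      exact Finset.mem_filter.2 ⟨Finset.mem_univ _, (hpP u (Finset.mem_filter.1 hu).2 j' hj1).1⟩
    · intro u hu
      exact (hj' u (hpow u (Finset.mem_filter.1 hu).2.1)).1
    · intro u hu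
      exact (hj' u (hpow u (Finset.mem_filter.1 hu).2.1)).2
    · intro u _
      rfl
  have hsum : (R.card : ℝ) * ((ℓ ^ (a - 1) * (ℓ - 1) * ℓ ^ (2 * k) : ℕ) : ℝ) ≤
      ((ℓ ^ (a - 1) * (ℓ - 1) : ℕ) : ℝ) * S := by
    calc (R.card : ℝ) * ((ℓ ^ (a - 1) * (ℓ - 1) * ℓ ^ (2 * k) : ℕ) : ℝ)
        = ∑ _u ∈ R, ((ℓ ^ (a - 1) * (ℓ - 1) * ℓ ^ (2 * k) : ℕ) : ℝ) := by
          rw [Finset.sum_const, nsmul_eq_mul]
      _ ≤ ∑ u ∈ R, ∑ j ∈ (Finset.range (ℓ ^ a)).filter (fun j => ¬ ℓ ∣ j),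
            Complex.normSq (vv M b d (u ^ j) χ) :=
          Finset.sum_le_sum fun u hu => hone u (Finset.mem_filter.1 hu).2
      _ = ∑ j ∈ (Finset.range (ℓ ^ a)).filter (fun j => ¬ ℓ ∣ j), S := by
          rw [Finset.sum_comm]
          exact Finset.sum_congr rfl fun j hj => hperm j (Finset.mem_filter.1 hj).2
      _ = ((ℓ ^ (a - 1) * (ℓ - 1) : ℕ) : ℝ) * S := by
          rw [Finset.sum_const, nsmul_eq_mul, card_filter_ndvd ha]
  have hφ : (0 : ℝ) < ((ℓ ^ (a - 1) * (ℓ - 1) : ℕ) : ℝ) := by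
    have h1 : 0 < ℓ ^ (a - 1) * (ℓ - 1) :=
      Nat.mul_pos (pow_pos hℓ.out.pos _) (Nat.sub_pos_of_lt hℓ.out.one_lt)
    exact_mod_cast h1
  have hfin : (R.card : ℝ) * ((ℓ ^ (2 * k) : ℕ) : ℝ) ≤ S := by
    rw [Nat.cast_mul (ℓ ^ (a - 1) * (ℓ - 1)) (ℓ ^ (2 * k))] at hsum
    have h1 : ((ℓ ^ (a - 1) * (ℓ - 1) : ℕ) : ℝ) * ((R.card : ℝ) * ((ℓ ^ (2 * k) : ℕ) : ℝ)) ≤
        ((ℓ ^ (a - 1) * (ℓ - 1) : ℕ) : ℝ) * S := by
      refine le_trans (le_of_eq ?_) hsum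
      ring
    exact le_of_mul_le_mul_left h1 hφ
  have hlt := sbs ℓ M hM hl2 G e V γ b d c ε D χ hχ
  rw [hSf] at hlt
  rw [hRc] at hcount
  have h1 : ((ix V γ * Nat.card V : ℕ) : ℝ) ≤ ((ℓ ^ (2 * k) * R.card : ℕ) : ℝ) := by
    exact_mod_cast hcount
  rw [Nat.cast_mul (ℓ ^ (2 * k))] at h1
  linarith [mul_comm (R.card : ℝ) ((ℓ ^ (2 * k) : ℕ) : ℝ)]

end Pool.Agent.PP.T8.H18
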